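import Pool.Agent.H37.CTN.Stmts

/-!
# Board `ctn`, row FN1 (helper46), part a: Moore determinants and splitting fields of linearized
polynomials of any degree (generalizes `Pool/Agent/H80/CTL/T32.lean` of helper80)
-/

set_option autoImplicit false

namespace Pool.CND

open Finset Polynomial

namespace FN1

/-- the combinations of the `X i` -/
theorem comb_inj {F L : Type} [Field F] [Field L] {n : ℕ} (φ : F →+* L) (X : Fin n → L)
    (ind : ∀ c : Fin n → F, ∑ i, φ (c i) * X i = 0 → c = 0) (c d : Fin n → F)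
    (h : ∑ i, φ (c i) * X i = ∑ i, φ (d i) * X i) : c = d := by
  rw [← sub_eq_zero]
  apply ind
  have e : ∀ i, φ ((c - d) i) * X i = φ (c i) * X i - φ (d i) * X i := fun i => by
    rw [Pi.sub_apply, map_sub, sub_mul]
  rw [Finset.sum_congr rfl fun i _ => e i, Finset.sum_sub_distrib, h, sub_self]

/-- the linearized polynomial, as a function -/
def lz {L : Type} [Field L] (q n : ℕ) (a : ℕ → L) (z : L) : L :=
  z ^ q ^ n + ∑ l ∈ range n, a l * z ^ q ^ l

section

variable {L : Type} [Field L] {p f q : ℕ}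

theorem pow_add (hp : p.Prime) [CharP L p] (hq : q = p ^ f) (s : ℕ) (x y : L) :
    (x + y) ^ q ^ s = x ^ q ^ s + y ^ q ^ s := by
  have : Fact p.Prime := ⟨hp⟩
  rw [hq, ← pow_mul]
  exact add_pow_char_pow x y p (f * s)

theorem pow_sum (hp : p.Prime) [CharP L p] (hq : q = p ^ f) {ι : Type} (u : Finset ι) (s : ℕ)
    (x : ι → L) : (∑ i ∈ u, x i) ^ q ^ s = ∑ i ∈ u, x i ^ q ^ s := by
  have : Fact p.Prime := ⟨hp⟩
  rw [hq, ← pow_mul]
  exact sum_pow_char_pow p (f * s) u x

theorem pow_cst {c : L} (hc : c ^ q = c) (s : ℕ) : c ^ q ^ s = c := by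
  induction s with
  | zero => rw [pow_zero, pow_one]
  | succ n ih => rw [pow_succ, pow_mul, ih, hc]

theorem lz_add (hp : p.Prime) [CharP L p] (hq : q = p ^ f) (n : ℕ) (a : ℕ → L) (x y : L) :
    lz q n a (x + y) = lz q n a x + lz q n a y := by
  unfold lz
  rw [pow_add hp hq]
  have : ∑ l ∈ range n, a l * (x + y) ^ q ^ l =
      ∑ l ∈ range n, a l * x ^ q ^ l + ∑ l ∈ range n, a l * y ^ q ^ l := by
    rw [← sum_add_distrib]
    refine sum_congr rfl fun l _ => ?_
    rw [pow_add hp hq, mul_add]
  rw [this]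
  ring

theorem lz_smul {c : L} (hc : c ^ q = c) (n : ℕ) (a : ℕ → L) (x : L) :
    lz q n a (c * x) = c * lz q n a x := by
  unfold lz
  rw [mul_pow, pow_cst hc, mul_add, mul_sum]
  congr 1
  refine sum_congr rfl fun l _ => ?_
  rw [mul_pow, pow_cst hc]
  ring

theorem lz_zero (hq0 : q ≠ 0) (n : ℕ) (a : ℕ → L) : lz q n a 0 = 0 := by
  unfold lz
  rw [zero_pow (pow_ne_zero n hq0), zero_add]
  refine sum_eq_zero fun l _ => ?_
  rw [zero_pow (pow_ne_zero l hq0), mul_zero]

theorem lz_sum (hp : p.Prime) [CharP L p] (hq : q = p ^ f) (n : ℕ) (a : ℕ → L) {m : ℕ}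
    (c X : Fin m → L) (hc : ∀ i, c i ^ q = c i) (hX : ∀ i, lz q n a (X i) = 0) :
    lz q n a (∑ i, c i * X i) = 0 := by
  have hq0 : q ≠ 0 := by rw [hq]; exact pow_ne_zero _ hp.ne_zero
  have h : ∀ u : Finset (Fin m), lz q n a (∑ i ∈ u, c i * X i) = 0 := by
    intro u
    classical
    induction u using Finset.induction_on with
    | empty => rw [sum_empty]; exact lz_zero hq0 n a
    | insert i u hi ih =>
      rw [sum_insert hi, lz_add hp hq, ih, lz_smul (hc i), hX i]
      ring
  exact h univ

end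

theorem moore {F L : Type} [Field F] [Field L] {n : ℕ} (φ : F →+* L) {p f q : ℕ} (hp : p.Prime)
    [CharP L p] (hf : 1 ≤ f) (hq : q = p ^ f) (hF : Nat.card F = q) (X : Fin n → L)
    (ind : ∀ c : Fin n → F, ∑ i, φ (c i) * X i = 0 → c = 0) :
    (Matrix.of fun i j : Fin n => X i ^ q ^ (j : ℕ)).det ≠ 0 := by
  classical
  have : Fact p.Prime := ⟨hp⟩
  have hq2 : 2 ≤ q := by
    rw [hq]
    calc 2 ≤ p := hp.two_le
      _ = p ^ 1 := (pow_one p).symm
      _ ≤ p ^ f := Nat.pow_le_pow_right hp.pos hf
  have hfin : Finite F := Nat.finite_of_card_ne_zero (by omega)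
  have := Fintype.ofFinite F
  have hpow : ∀ a : F, a ^ q = a := by
    intro a
    rw [← hF, Nat.card_eq_fintype_card]
    exact FiniteField.pow_card a
  intro hdet
  obtain ⟨v, hv0, hv⟩ := Matrix.exists_mulVec_eq_zero_iff.2 hdet
  set R : L[X] := ∑ j : Fin n, Polynomial.C (v j) * Polynomial.X ^ q ^ (j : ℕ) with hR
  have hco : ∀ j : Fin n, R.coeff (q ^ (j : ℕ)) = v j := by
    intro j
    rw [hR, finset_sum_coeff, Finset.sum_eq_single j]
    · rw [coeff_C_mul_X_pow, if_pos rfl]
    · intro l _ hl
      rw [coeff_C_mul_X_pow, if_neg]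
      intro h
      exact hl (Fin.ext (Nat.pow_right_injective hq2 h.symm))
    · intro h
      exact absurd (mem_univ j) h
  have hne : R ≠ 0 := by
    intro h0
    apply hv0
    funext j
    rw [← hco j, h0, coeff_zero]
    rfl
  have hlin : ∀ z : L, R.eval z = ∑ j : Fin n, v j * z ^ q ^ (j : ℕ) := by
    intro z
    rw [hR, eval_finset_sum]
    refine sum_congr rfl fun j _ => ?_
    rw [eval_mul, eval_C, eval_pow, eval_X]
  have hX : ∀ i, R.eval (X i) = 0 := by
    intro i
    have h1 := congrFun hv i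
    rw [Matrix.mulVec, dotProduct] at h1
    simp only [Matrix.of_apply, Pi.zero_apply] at h1
    rw [hlin, ← h1]
    exact sum_congr rfl fun j _ => mul_comm _ _
  have hφ : ∀ c : F, φ c ^ q = φ c := fun c => by rw [← map_pow, hpow]
  apply hne
  apply Polynomial.eq_zero_of_natDegree_lt_card_of_eval_eq_zero R
    (f := fun c : Fin n → F => ∑ i, φ (c i) * X i) (fun c d h => comb_inj φ X ind c d h)
  · intro c
    rw [hlin]
    have e1 : ∀ j : Fin n, v j * (∑ i, φ (c i) * X i) ^ q ^ (j : ℕ) =
        ∑ i, φ (c i) * (v j * X i ^ q ^ (j : ℕ)) := by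
      intro j
      rw [pow_sum hp hq, mul_sum]
      refine sum_congr rfl fun i _ => ?_
      rw [mul_pow, pow_cst (hφ (c i))]
      ring
    rw [sum_congr rfl fun j _ => e1 j, sum_comm]
    refine sum_eq_zero fun i _ => ?_
    rw [← mul_sum, ← hlin, hX, mul_zero]
  · rw [Fintype.card_fun, Fintype.card_fin, ← Nat.card_eq_fintype_card, hF]
    have hpos : 0 < q ^ n := by positivity
    refine lt_of_le_of_lt (b := q ^ n - 1) ?_ (by omega)
    refine natDegree_sum_le_of_forall_le _ _ fun j _ => ?_
    refine (natDegree_C_mul_X_pow_le _ _).trans ?_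
    have : q ^ (j : ℕ) < q ^ n := Nat.pow_lt_pow_right (by omega) j.2
    omega

/-- `Δ ^ q = ± Δ` -/
theorem moore_pow {L : Type} [Field L] {p f q N : ℕ} (hp : p.Prime) [CharP L p] (hq : q = p ^ f)
    (X : Fin (N + 1) → L) (A : ℕ → L) (hA0 : A 0 = 1)
    (rel : ∀ i, lz q (N + 1) A (X i) = 0) :
    (Matrix.of fun i j : Fin (N + 1) => X i ^ q ^ (j : ℕ)).det ^ q =
      (Matrix.of fun i j : Fin (N + 1) => X i ^ q ^ (j : ℕ)).det ∨
    (Matrix.of fun i j : Fin (N + 1) => X i ^ q ^ (j : ℕ)).det ^ q =
      -(Matrix.of fun i j : Fin (N + 1) => X i ^ q ^ (j : ℕ)).det := by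
  have : Fact p.Prime := ⟨hp⟩
  set M : Matrix (Fin (N + 1)) (Fin (N + 1)) L :=
    Matrix.of fun i j : Fin (N + 1) => X i ^ q ^ (j : ℕ) with hM
  set fr : L →+* L := iterateFrobenius L p f with hfr
  have hfra : ∀ x, fr x = x ^ q := by
    intro x
    rw [hfr, iterateFrobenius_def, hq]
  set Mq : Matrix (Fin (N + 1)) (Fin (N + 1)) L := fr.mapMatrix M with hMq
  have hMqa : ∀ i j, Mq i j = X i ^ q ^ ((j : ℕ) + 1) := by
    intro i j
    rw [hMq, RingHom.mapMatrix_apply, Matrix.map_apply, hM, Matrix.of_apply, hfra, ← pow_mul,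
      ← pow_succ]
  set K' : Matrix (Fin (N + 1)) (Fin (N + 1)) L :=
    Matrix.of fun l j => if j = 0 then -A l else if l = j then 1 else 0 with hK
  have hdetK : K'.det = -1 := by
    rw [Matrix.det_of_lowerTriangular K' (by
      intro i j hij
      have hij' : i < j := hij
      have hj : j ≠ 0 := by
        intro h
        rw [h] at hij'
        exact absurd hij' (Fin.not_lt_zero i)
      rw [hK, Matrix.of_apply, if_neg hj, if_neg hij'.ne])]
    rw [Fin.prod_univ_succ]
    have e1 : K' 0 0 = -1 := by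
      rw [hK, Matrix.of_apply, if_pos rfl]
      show -A 0 = -1
      rw [hA0]
    have e2 : ∀ i : Fin N, K' i.succ i.succ = 1 := by
      intro i
      rw [hK, Matrix.of_apply, if_neg (Fin.succ_ne_zero i), if_pos rfl]
    rw [e1, prod_congr rfl fun i _ => e2 i, prod_const_one, mul_one]
  have hprod : Mq.submatrix id (finRotate (N + 1)).symm = M * K' := by
    ext i j
    rw [Matrix.submatrix_apply, id, Matrix.mul_apply, hMqa]
    by_cases hj : j = 0
    · have e1 : (finRotate (N + 1)).symm j = Fin.last N := by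
        rw [Equiv.symm_apply_eq, finRotate_last, hj]
      rw [e1, Fin.val_last]
      have h1 := rel i
      unfold lz at h1
      rw [Finset.sum_range] at h1
      have e2 : ∑ l, M i l * K' l j = -∑ l : Fin (N + 1), A l * X i ^ q ^ (l : ℕ) := by
        rw [← sum_neg_distrib]
        refine sum_congr rfl fun l _ => ?_
        rw [hK, Matrix.of_apply, if_pos hj, hM, Matrix.of_apply]
        ring
      rw [e2]
      linear_combination h1
    · obtain ⟨j', rfl⟩ := Fin.exists_succ_eq.2 hj
      have e1 : (finRotate (N + 1)).symm j'.succ = j'.castSucc := by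
        rw [Equiv.symm_apply_eq, finRotate_succ_apply]
        exact (Fin.coeSucc_eq_succ).symm
      rw [e1, Fin.val_castSucc]
      have e2 : ∑ l, M i l * K' l j'.succ = M i j'.succ := by
        rw [Finset.sum_eq_single j'.succ]
        · rw [hK, Matrix.of_apply, if_neg hj, if_pos rfl, mul_one]
        · intro l _ hl
          rw [hK, Matrix.of_apply, if_neg hj, if_neg hl, mul_zero]
        · intro h
          exact absurd (mem_univ _) h
      rw [e2, hM, Matrix.of_apply, Fin.val_succ]
  have h1 := congrArg Matrix.det hprod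
  rw [Matrix.det_permute', Matrix.det_mul, hdetK] at h1
  have h2 : Mq.det = M.det ^ q := by
    rw [hMq, ← RingHom.map_det, hfra]
  rw [h2] at h1
  rcases Int.units_eq_one_or (Equiv.Perm.sign (finRotate (N + 1)).symm) with h3 | h3
  · right
    rw [h3] at h1
    simpa using h1
  · left
    rw [h3] at h1
    simpa using h1

/-- the action on `Δ` -/
theorem moore_act {F L : Type} [Field F] [Field L] {n : ℕ} (φ : F →+* L) {p f q : ℕ}
    (hp : p.Prime) [CharP L p] (hq : q = p ^ f) (hF : ∀ a : F, a ^ q = a) (X : Fin n → L)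
    (σ : L →+* L) (g : Matrix (Fin n) (Fin n) F) (hσ : ∀ i, σ (X i) = ∑ j, φ (g j i) * X j) :
    σ (Matrix.of fun i j : Fin n => X i ^ q ^ (j : ℕ)).det =
      φ g.det * (Matrix.of fun i j : Fin n => X i ^ q ^ (j : ℕ)).det := by
  have hφ : ∀ (n : ℕ) (c : F), φ c ^ q ^ n = φ c := by
    intro n c
    exact pow_cst (by rw [← map_pow, hF]) n
  have h1 : σ.mapMatrix (Matrix.of fun i j : Fin n => X i ^ q ^ (j : ℕ)) =
      (φ.mapMatrix g).transpose * (Matrix.of fun i j : Fin n => X i ^ q ^ (j : ℕ)) := by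
    ext i j
    rw [RingHom.mapMatrix_apply, Matrix.map_apply, Matrix.of_apply, map_pow, hσ,
      pow_sum hp hq, Matrix.mul_apply]
    refine Finset.sum_congr rfl fun l _ => ?_
    rw [mul_pow, hφ, Matrix.transpose_apply, RingHom.mapMatrix_apply, Matrix.map_apply,
      Matrix.of_apply]
  rw [RingHom.map_det, h1, Matrix.det_mul, Matrix.det_transpose, ← RingHom.map_det]

/-! ## The splitting field -/

theorem field (p : ℕ) (K F : Type) [Field K] [Field F] (ι : F →+* K) (f q n : ℕ) (A : ℕ → K)
    (hn : 1 ≤ n) (hA0 : A 0 = 1)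
    (hp : p.Prime) [CharP K p] (hf : 1 ≤ f) (hq : q = p ^ f) (hF : Nat.card F = q) :
    ∃ (L : Type) (_ : Field L) (_ : Algebra K L) (X : Fin n → L), IsGalois K L ∧
      FiniteDimensional K L ∧
      (∀ i, lz q n (fun l => algebraMap K L (A l)) (X i) = 0) ∧
      (∀ c : Fin n → F, ∑ i, algebraMap K L (ι (c i)) * X i = 0 → c = 0) ∧
      (∀ z : L, lz q n (fun l => algebraMap K L (A l)) z = 0 →
        ∃ c : Fin n → F, z = ∑ i, algebraMap K L (ι (c i)) * X i) ∧
      (∀ σ τ : L ≃ₐ[K] L, (∀ i, σ (X i) = τ (X i)) → σ = τ) := by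
  classical
  have : Fact p.Prime := ⟨hp⟩
  have hq2 : 2 ≤ q := by
    rw [hq]
    calc 2 ≤ p := hp.two_le
      _ = p ^ 1 := (pow_one p).symm
      _ ≤ p ^ f := Nat.pow_le_pow_right hp.pos hf
  have hfin : Finite F := Nat.finite_of_card_ne_zero (by omega)
  have := Fintype.ofFinite F
  have hpow : ∀ a : F, a ^ q = a := by
    intro a
    rw [← hF, Nat.card_eq_fintype_card]
    exact FiniteField.pow_card a
  have hqK : ∀ l : ℕ, 1 ≤ l → ((q ^ l : ℕ) : K) = 0 := by
    intro l hl
    rw [hq, Nat.cast_pow, Nat.cast_pow, CharP.cast_eq_zero, zero_pow (by omega),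
      zero_pow (by omega)]
  set S : K[X] := ∑ l ∈ range n, Polynomial.C (A l) * Polynomial.X ^ q ^ l with hS
  set P : K[X] := Polynomial.X ^ q ^ n + S with hP
  have hqn : 0 < q ^ n := by positivity
  have hSdeg : S.natDegree ≤ q ^ n - 1 := by
    rw [hS]
    refine natDegree_sum_le_of_forall_le _ _ fun j hj => ?_
    refine (natDegree_C_mul_X_pow_le _ _).trans ?_
    have : q ^ j < q ^ n := Nat.pow_lt_pow_right (by omega) (mem_range.1 hj)
    omega
  have hdeg : P.natDegree = q ^ n := by
    rw [hP, natDegree_add_eq_left_of_natDegree_lt, natDegree_X_pow]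
    rw [natDegree_X_pow]
    omega
  have hP0 : P ≠ 0 := by
    intro h
    rw [h, natDegree_zero] at hdeg
    omega
  have hder : derivative P = 1 := by
    rw [hP, derivative_add, derivative_X_pow, hqK n hn, hS, derivative_sum,
      Finset.sum_eq_single 0]
    · rw [pow_zero, pow_one, derivative_C_mul, derivative_X, hA0]
      simp
    · intro l _ hl
      rw [derivative_C_mul, derivative_X_pow, hqK l (by omega)]
      simp
    · intro h
      exact absurd (mem_range.2 (by omega)) h
  have hsep : P.Separable := by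
    rw [separable_def, hder]
    exact isCoprime_one_right
  let L : Type := P.SplittingField
  have hL : P.IsSplittingField K L := inferInstanceAs (P.IsSplittingField K P.SplittingField)
  have hgal : IsGalois K L := IsGalois.of_separable_splitting_field hsep
  have hfd : FiniteDimensional K L := Polynomial.IsSplittingField.finiteDimensional L P
  have hcL : CharP L p := charP_of_injective_algebraMap (algebraMap K L).injective p
  let algF : Algebra F L := ((algebraMap K L).comp ι).toAlgebra
  have hsm : ∀ (c : F) (z : L), c • z = algebraMap K L (ι c) * z := fun c z =>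
    Algebra.smul_def c z
  have hφ : ∀ c : F, algebraMap K L (ι c) ^ q = algebraMap K L (ι c) := fun c => by
    rw [← map_pow, ← map_pow, hpow]
  have haev : ∀ z : L, aeval z P = lz q n (fun l => algebraMap K L (A l)) z := by
    intro z
    have h1 : ∀ R : K[X], R = Polynomial.X ^ q ^ n +
        ∑ l ∈ range n, Polynomial.C (A l) * Polynomial.X ^ q ^ l → aeval z R =
        lz q n (fun l => algebraMap K L (A l)) z := by
      intro R hR
      rw [hR]
      unfold lz
      simp
    exact h1 P hP
  let V : Submodule F L :=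
    { carrier := {z | lz q n (fun l => algebraMap K L (A l)) z = 0}
      add_mem' := by
        intro z w hz hw
        simp only [Set.mem_setOf_eq] at hz hw ⊢
        rw [lz_add hp hq, hz, hw, add_zero]
      zero_mem' := by
        simp only [Set.mem_setOf_eq]
        exact lz_zero (by omega) n _
      smul_mem' := by
        intro c z hz
        simp only [Set.mem_setOf_eq] at hz ⊢
        rw [hsm, lz_smul (hφ c), hz, mul_zero] }
  have hVmem : ∀ z : L, z ∈ V ↔ lz q n (fun l => algebraMap K L (A l)) z = 0 := fun z =>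
    Iff.rfl
  have hVroot : ∀ z : L, z ∈ V ↔ z ∈ P.rootSet L := by
    intro z
    rw [hVmem, Polynomial.mem_rootSet, haev]
    exact ⟨fun h => ⟨hP0, h⟩, fun h => h.2⟩
  have hcard : Nat.card V = q ^ n := by
    have h1 := card_rootSet_eq_natDegree (K := L) hsep
      (Polynomial.IsSplittingField.splits L P)
    rw [hdeg] at h1
    rw [← h1, ← Nat.card_eq_fintype_card]
    exact Nat.card_congr (Equiv.subtypeEquivRight hVroot)
  have hVfin : Finite V := Nat.finite_of_card_ne_zero (by rw [hcard]; positivity)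
  have : Module.Finite F V := Module.Finite.of_finite
  have hrank : Module.finrank F V = n := by
    have h1 := Module.natCard_eq_pow_finrank (K := F) (V := V)
    rw [hcard, hF] at h1
    exact (Nat.pow_right_injective hq2 h1).symm
  let b : Module.Basis (Fin n) F V := Module.finBasisOfFinrankEq F V hrank
  have hcomb : ∀ c : Fin n → F, ((∑ i, c i • b i : V) : L) =
      ∑ i, algebraMap K L (ι (c i)) * (b i : L) := by
    intro c
    rw [AddSubmonoidClass.coe_finset_sum]
    refine Finset.sum_congr rfl fun i _ => ?_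
    rw [Submodule.coe_smul, hsm]
  have hspan : ∀ z : L, lz q n (fun l => algebraMap K L (A l)) z = 0 →
        ∃ c : Fin n → F, z = ∑ i, algebraMap K L (ι (c i)) * (b i : L) := by
    intro z hz
    refine ⟨b.repr ⟨z, hz⟩, ?_⟩
    rw [← hcomb, b.sum_repr]
  refine ⟨L, inferInstance, inferInstance, fun i => (b i : L), hgal, hfd, fun i => (b i).2, ?_,
    hspan, ?_⟩
  · intro c hc
    rw [← hcomb] at hc
    have h1 : (∑ i, c i • b i : V) = 0 := Subtype.ext hc
    have h2 := b.linearIndependent
    rw [Fintype.linearIndependent_iff] at h2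
    funext i
    exact h2 c h1 i
  · intro σ τ h
    have h1 : (σ : L →ₐ[K] L) = (τ : L →ₐ[K] L) := by
      apply AlgHom.ext_of_adjoin_eq_top (Polynomial.IsSplittingField.adjoin_rootSet L P)
      intro z hz
      obtain ⟨c, hc⟩ := hspan z ((hVroot z).2 hz)
      show σ z = τ z
      rw [hc, map_sum, map_sum]
      refine Finset.sum_congr rfl fun i _ => ?_
      rw [map_mul, map_mul, AlgEquiv.commutes, AlgEquiv.commutes, h i]
    ext z
    exact DFunLike.congr_fun h1 z

end FN1

end Pool.CND
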