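import Pool.Agent.H46.CTN.FN1a

/-!
# Board `ctn`, row FN1 (helper46): the covers of linearized polynomials of any degree
(generalizes `Pool/Agent/H80/CTL/T32.lean` of helper80)
-/

set_option autoImplicit false

namespace Pool.CND

open Finset Polynomial

namespace FN1

theorem rat_mem {k L : Type} [Field k] [Field L] [Algebra k L] [Algebra (RatFunc k) L]
    [IsScalarTower k (RatFunc k) L] (u : RatFunc k) :
    algebraMap (RatFunc k) L u ∈
      IntermediateField.adjoin k {algebraMap (RatFunc k) L RatFunc.X} := by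
  have hpol : ∀ q : Polynomial k, algebraMap (RatFunc k) L (algebraMap (Polynomial k) _ q) ∈
      IntermediateField.adjoin k {algebraMap (RatFunc k) L RatFunc.X} := by
    intro q
    rw [← RatFunc.aeval_X_left_eq_algebraMap, ← Polynomial.aeval_algebraMap_apply]
    exact IntermediateField.algebra_adjoin_le_adjoin k _
      (Polynomial.aeval_mem_adjoin_singleton k _)
  rw [← RatFunc.num_div_denom u, map_div₀]
  exact div_mem (hpol _) (hpol _)

/-! ## Places with `t` finite -/

section

variable {k L : Type} [Field k] [Field L] [Algebra k L] (Q : Place k L)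

theorem pow_ge {z : L} (hz : Q.Ge z 0) (n : ℕ) : Q.Ge (z ^ n) 0 := by
  induction n with
  | zero => rw [pow_zero]; exact Or.inr (by rw [Q.ord_one])
  | succ n ih =>
    rw [pow_succ]
    have := Q.ge_mul ih hz
    rwa [add_zero] at this

theorem aeval_ge {t : L} (ht : Q.Ge t 0) (a : k[X]) : Q.Ge (aeval t a) 0 := by
  rw [Polynomial.aeval_eq_sum_range]
  refine Q.ge_sum _ _ _ fun i _ => ?_
  rw [Algebra.smul_def]
  have := Q.ge_mul (Q.ge_const (a.coeff i)) (pow_ge Q ht i)
  rwa [add_zero] at this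

theorem ge_sum' {s : Finset ℕ} {x : ℕ → L} {m : ℤ} (h : ∀ i ∈ s, Q.Ge (x i) m) :
    Q.Ge (∑ i ∈ s, x i) m := Q.ge_sum s x m h

/-- the roots are integral -/
theorem int {A : ℕ → L} {z : L} {q n : ℕ} (hq : 2 ≤ q) (hn : 1 ≤ n) (hA : ∀ l, Q.Ge (A l) 0)
    (h : lz q n A z = 0) : Q.Ge z 0 := by
  by_contra hz
  obtain ⟨hz0, hzlt⟩ := Q.not_ge.1 hz
  have hmono : ∀ a b : ℕ, a ≤ b → (b : ℤ) * Q.ord z ≤ (a : ℤ) * Q.ord z := by
    intro a b hab
    have : (a : ℤ) ≤ (b : ℤ) := by exact_mod_cast hab
    nlinarith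
  have g0 : Q.Ge (∑ l ∈ range n, A l * z ^ q ^ l) ((q ^ (n - 1) : ℕ) * Q.ord z) := by
    refine ge_sum' Q fun l hl => ?_
    have hl' := mem_range.1 hl
    have h1 : Q.Ge (z ^ q ^ l) ((q ^ (n - 1) : ℕ) * Q.ord z) :=
      Or.inr (by
        rw [Q.ord_pow hz0]
        exact hmono _ _ (Nat.pow_le_pow_right (by omega) (by omega)))
    have := Q.ge_mul (hA l) h1
    rwa [zero_add] at this
  have e : z ^ q ^ n = -(∑ l ∈ range n, A l * z ^ q ^ l) := by
    unfold lz at h
    linear_combination h
  have g4 : Q.Ge (z ^ q ^ n) ((q ^ (n - 1) : ℕ) * Q.ord z) := by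
    rw [e]
    exact Q.ge_neg g0
  have g5 := (Q.ge_iff (pow_ne_zero _ hz0) _).1 g4
  rw [Q.ord_pow hz0] at g5
  have hlt : q ^ (n - 1) < q ^ n := Nat.pow_lt_pow_right (by omega) (by omega)
  have h46' : ((q ^ (n - 1) : ℕ) : ℤ) + 1 ≤ ((q ^ n : ℕ) : ℤ) := by exact_mod_cast hlt
  nlinarith

/-- a root of positive order is `0` -/
theorem zero {A : ℕ → L} {z : L} {q n : ℕ} (hq : 2 ≤ q) (hn : 1 ≤ n) (hA0 : A 0 = 1)
    (hA : ∀ l, Q.Ge (A l) 0) (h : lz q n A z = 0) (hz : Q.Ge z 1) : z = 0 := by
  by_contra hz0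
  have hz1 : 1 ≤ Q.ord z := (Q.ge_iff hz0 _).1 hz
  have hz' : ∀ l : ℕ, 1 ≤ l → Q.Ge (z ^ q ^ l) (Q.ord z + 1) := fun l hl =>
    Or.inr (by
      rw [Q.ord_pow hz0]
      have h2 : 2 ≤ q ^ l := by
        calc 2 ≤ q := hq
          _ = q ^ 1 := (pow_one q).symm
          _ ≤ q ^ l := Nat.pow_le_pow_right (by omega) hl
      have : (2 : ℤ) ≤ ((q ^ l : ℕ) : ℤ) := by exact_mod_cast h2
      nlinarith)
  obtain ⟨N, rfl⟩ : ∃ N, n = N + 1 := ⟨n - 1, by omega⟩
  have g1 : Q.Ge (∑ l ∈ range N, A (l + 1) * z ^ q ^ (l + 1)) (Q.ord z + 1) := by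
    refine ge_sum' Q fun l _ => ?_
    have := Q.ge_mul (hA (l + 1)) (hz' (l + 1) (by omega))
    rwa [zero_add] at this
  have e : z = -(z ^ q ^ (N + 1)) - ∑ l ∈ range N, A (l + 1) * z ^ q ^ (l + 1) := by
    unfold lz at h
    rw [Finset.sum_range_succ', pow_zero, pow_one, hA0] at h
    linear_combination h
  have g3 : Q.Ge z (Q.ord z + 1) := by
    have := Q.ge_sub (Q.ge_neg (hz' (N + 1) (by omega))) g1
    rwa [← e] at this
  have g4 := (Q.ge_iff hz0 _).1 g3
  omega

theorem res {z : L} (hz : Q.Ge z 0) : ∃ c : k, Q.Ge (z - algebraMap k L c) 1 := by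
  by_cases hz0 : z = 0
  · exact ⟨0, Or.inl (by rw [hz0, map_zero, sub_zero])⟩
  · obtain ⟨c, hc⟩ := Q.residue z hz0 ((Q.ge_iff hz0 0).1 hz)
    refine ⟨c, ?_⟩
    rcases hc with hc | hc
    · exact Or.inl (by rw [← hc, sub_self])
    · exact Or.inr (by omega)

theorem const0 {c : k} (h : Q.Ge (algebraMap k L c) 1) : c = 0 := by
  by_contra hc0
  have h4 : algebraMap k L c ≠ 0 := by
    rw [Ne, map_eq_zero]
    exact hc0
  have h5 := (Q.ge_iff h4 1).1 h
  rw [Q.ord_const c hc0] at h5
  omega

end

/-- the general cover -/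
theorem cover (p : ℕ) (k F : Type) [Field k] [IsAlgClosed k] [Field F] [Algebra F k]
    (f q n : ℕ) (a : ℕ → k[X]) (hn : 1 ≤ n) (ha0 : a 0 = 1) (hp : p.Prime) (hc : CharP k p)
    (hf : 1 ≤ f) (hq : q = p ^ f) (hF : Nat.card F = q) :
    ∃ (L : Type) (_ : Field L) (_ : Algebra k L) (t : L) (X : Fin n → L)
      (G₀ : Subgroup (Matrix.SpecialLinearGroup (Fin n) F)) (ρ : G₀ →* (L ≃ₐ[k] L)),
      (∀ i, lz q n (fun l => aeval t (a l)) (X i) = 0) ∧
      (∀ c : Fin n → F, ∑ i, cst k F L (c i) * X i = 0 → c = 0) ∧ Transcendental k t ∧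
      NCover k F L t X G₀ ρ := by
  classical
  have : Fact p.Prime := ⟨hp⟩
  have hq2 : 2 ≤ q := by
    rw [hq]
    calc 2 ≤ p := hp.two_le
      _ = p ^ 1 := (pow_one p).symm
      _ ≤ p ^ f := Nat.pow_le_pow_right hp.pos hf
  have hfin : Finite F := Nat.finite_of_card_ne_zero (by omega)
  have := Fintype.ofFinite F
  have hpow : ∀ a : F, a ^ q = a := by
    intro a
    rw [← hF, Nat.card_eq_fintype_card]
    exact FiniteField.pow_card a
  have hcharK : CharP (RatFunc k) p :=
    charP_of_injective_algebraMap (algebraMap k (RatFunc k)).injective p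
  obtain ⟨L, iL, iA, X, hgal, hfd, hrel, hind, hspan, huniq⟩ := field p (RatFunc k) F
    ((algebraMap k (RatFunc k)).comp (algebraMap F k)) f q n
    (fun l => algebraMap k[X] (RatFunc k) (a l)) hn (by rw [ha0, map_one]) hp hf hq hF
  let iAk : Algebra k L := ((algebraMap (RatFunc k) L).comp (algebraMap k (RatFunc k))).toAlgebra
  have iST : IsScalarTower k (RatFunc k) L := IsScalarTower.of_algebraMap_eq (fun _ => rfl)
  have hcharL : CharP L p := charP_of_injective_algebraMap (algebraMap k L).injective p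
  set t : L := algebraMap (RatFunc k) L RatFunc.X with htdef
  have hpoly : ∀ q : Polynomial k, algebraMap (RatFunc k) L (algebraMap (Polynomial k) _ q) =
      aeval t q := by
    intro q
    rw [← RatFunc.aeval_X_left_eq_algebraMap, ← Polynomial.aeval_algebraMap_apply]
  have hcst : ∀ c : F, algebraMap (RatFunc k) L
      (((algebraMap k (RatFunc k)).comp (algebraMap F k)) c) = cst k F L c := fun c => rfl
  simp only [hpoly, hcst] at hrel hind hspan
  let φ : F →+* L := (algebraMap k L).comp (algebraMap F k)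
  have hφ : ∀ c : F, φ c = cst k F L c := fun c => rfl
  have hcstq : ∀ c : F, cst k F L c ^ q = cst k F L c := fun c => by
    rw [← hφ, ← map_pow, hpow]
  -- the matrices of the automorphisms
  have hlz : ∀ (σ : L ≃ₐ[RatFunc k] L) (z : L), σ (lz q n (fun l => aeval t (a l)) z) =
      lz q n (fun l => aeval t (a l)) (σ z) := by
    intro σ z
    unfold lz
    rw [map_add, map_pow, map_sum]
    congr 1
    refine sum_congr rfl fun l _ => ?_
    show σ (aeval t (a l) * z ^ q ^ l) = aeval t (a l) * σ z ^ q ^ l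
    rw [map_mul, map_pow, ← hpoly, AlgEquiv.commutes]
  have hex : ∀ (σ : L ≃ₐ[RatFunc k] L) (i : Fin n), ∃ c : Fin n → F,
      σ (X i) = ∑ j, cst k F L (c j) * X j := by
    intro σ i
    apply hspan
    rw [← hlz, hrel i, map_zero]
  choose m hm using hex
  let M : (L ≃ₐ[RatFunc k] L) → Matrix (Fin n) (Fin n) F := fun σ =>
    Matrix.of fun j i => m σ i j
  have hM : ∀ σ i, σ (X i) = ∑ j, cst k F L (M σ j i) * X j := fun σ i => hm σ i
  have hMuniq : ∀ (σ : L ≃ₐ[RatFunc k] L) (N : Matrix (Fin n) (Fin n) F),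
      (∀ i, σ (X i) = ∑ j, cst k F L (N j i) * X j) → M σ = N := by
    intro σ N hN
    ext j i
    have h1 := comb_inj φ X hind (fun j => M σ j i) (fun j => N j i)
      ((hM σ i).symm.trans (hN i))
    exact congrFun h1 j
  have hM1 : M 1 = 1 := by
    apply hMuniq
    intro i
    rw [AlgEquiv.one_apply, Finset.sum_eq_single i]
    · rw [Matrix.one_apply_eq]
      show X i = algebraMap k L (algebraMap F k 1) * X i
      rw [map_one, map_one, one_mul]
    · intro j _ hj
      rw [Matrix.one_apply_ne hj]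
      show algebraMap k L (algebraMap F k 0) * X j = 0
      rw [map_zero, map_zero, zero_mul]
    · intro h
      exact absurd (Finset.mem_univ i) h
  have hMmul : ∀ σ τ, M (σ * τ) = M σ * M τ := by
    intro σ τ
    apply hMuniq
    intro i
    rw [AlgEquiv.mul_apply, hM τ i, map_sum]
    have h1 : ∀ j, σ (cst k F L (M τ j i) * X j) =
        ∑ l, cst k F L (M σ l j) * cst k F L (M τ j i) * X l := by
      intro j
      have h2 : σ (cst k F L (M τ j i)) = cst k F L (M τ j i) := by
        rw [← hcst, AlgEquiv.commutes]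
      rw [map_mul, h2, hM σ j, Finset.mul_sum]
      refine Finset.sum_congr rfl fun l _ => ?_
      ring
    rw [Finset.sum_congr rfl fun j _ => h1 j, Finset.sum_comm]
    refine Finset.sum_congr rfl fun l _ => ?_
    rw [← Finset.sum_mul]
    congr 1
    rw [Matrix.mul_apply]
    simp only [← hφ]
    rw [map_sum]
    refine Finset.sum_congr rfl fun j _ => ?_
    rw [map_mul]
  -- the determinants
  set Δ : L := (Matrix.of fun i j : Fin n => X i ^ q ^ (j : ℕ)).det with hΔ
  have hΔ0 : Δ ≠ 0 := moore φ hp hf hq hF X hind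
  have hΔq : Δ ^ q = Δ ∨ Δ ^ q = -Δ := by
    obtain ⟨N, rfl⟩ : ∃ N, n = N + 1 := ⟨n - 1, by omega⟩
    exact moore_pow hp hq X _ (by
      show aeval t (a 0) = 1
      rw [ha0, map_one]) hrel
  have hΔk : ∃ δ : k, algebraMap k L δ = Δ := by
    have hint : IsIntegral k Δ := by
      rcases hΔq with hΔq | hΔq
      · refine ⟨Polynomial.X ^ q - Polynomial.X, ?_, ?_⟩
        · monicity!
          rw [if_pos (by omega), if_neg (by omega)]
          simp
        · simp [hΔq]
      · refine ⟨Polynomial.X ^ q + Polynomial.X, ?_, ?_⟩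
        · monicity!
          rw [if_pos (by omega), if_neg (by omega)]
          simp
        · simp [hΔq]
    have h : (minpoly k Δ).degree = 1 :=
      IsAlgClosed.degree_eq_one_of_irreducible k (minpoly.irreducible hint)
    exact minpoly.mem_range_of_degree_eq_one k Δ h
  have hdet : ∀ σ, (M σ).det = 1 := by
    intro σ
    obtain ⟨δ, hδ⟩ := hΔk
    have h1 := moore_act φ hp hq hpow X (σ : L →+* L) (M σ) (hM σ)
    rw [← hΔ] at h1
    have h2 : (σ : L →+* L) Δ = Δ := by
      rw [← hδ]
      exact σ.commutes (algebraMap k (RatFunc k) δ)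
    rw [h2] at h1
    have h3 : φ (M σ).det = 1 := by
      apply mul_right_cancel₀ hΔ0
      rw [← h1, one_mul]
    apply φ.injective
    rw [h3, map_one]
  let Φ : (L ≃ₐ[RatFunc k] L) →* Matrix.SpecialLinearGroup (Fin n) F :=
    { toFun := fun σ => ⟨M σ, hdet σ⟩
      map_one' := Subtype.ext hM1
      map_mul' := fun σ τ => Subtype.ext (hMmul σ τ) }
  have hΦ : ∀ σ, (Φ σ).1 = M σ := fun σ => rfl
  have hΦinj : Function.Injective Φ := by
    intro σ τ h
    apply huniq
    intro i
    rw [hM σ i, hM τ i, ← hΦ, ← hΦ, h]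
  let e : (L ≃ₐ[RatFunc k] L) ≃* Φ.range := MonoidHom.ofInjective hΦinj
  let ρ : Φ.range →* (L ≃ₐ[k] L) :=
    (AlgEquiv.restrictScalarsHom k).comp e.symm.toMonoidHom
  have hρ : ∀ g z, ρ g z = e.symm g z := fun g z => rfl
  have hact : ∀ (g : Φ.range) (i : Fin n), ρ g (X i) = ∑ j, cst k F L (g.1.1 j i) * X j := by
    intro g i
    have h1 : M (e.symm g) = g.1.1 := by
      have h2 := congrArg Subtype.val (e.apply_symm_apply g)
      have h3 : (e (e.symm g)).1 = Φ (e.symm g) := rfl
      rw [h3] at h2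
      rw [← hΦ, h2]
    rw [hρ, hM, h1]
  have hinj : Function.Injective ρ := by
    intro g g' h
    apply e.symm.injective
    ext z
    exact DFunLike.congr_fun h z
  have htr : Transcendental k t := by
    rw [htdef]
    exact (transcendental_algebraMap_iff (algebraMap (RatFunc k) L).injective).mpr
      RatFunc.transcendental_X
  refine ⟨L, iL, iAk, t, X, Φ.range, ρ, hrel, hind, htr, ⟨hact, hinj, htr, ?_, ?_⟩⟩
  · intro z
    constructor
    · intro hz
      have h1 : ∀ σ : L ≃ₐ[RatFunc k] L, σ z = z := by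
        intro σ
        have h2 := hz (e σ)
        rw [hρ, e.symm_apply_apply] at h2
        exact h2
      obtain ⟨u, hu⟩ := (IsGalois.mem_range_algebraMap_iff_fixed (F := RatFunc k) (E := L) z).2 h1
      rw [← hu]
      exact rat_mem u
    · have hK : IntermediateField.adjoin k {t} ≤ IntermediateField.fixedField ρ.range := by
        rw [IntermediateField.adjoin_simple_le_iff]
        rintro ⟨τ, g, rfl⟩
        show ρ g t = t
        rw [hρ, htdef, AlgEquiv.commutes]
      intro hz g
      exact hK hz ⟨ρ g, g, rfl⟩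
  · intro Q ht g hg
    have ht' : Q.Ge t 0 := Or.inr ht
    have hA : ∀ l, Q.Ge (aeval t (a l)) 0 := fun l => aeval_ge Q ht' (a l)
    have hX : ∀ i, Q.Ge (X i) 0 := fun i => int Q hq2 hn hA (hrel i)
    choose u hu using fun i => res Q (hX i)
    -- residues are independent
    have hui : ∀ c : Fin n → F, ∑ i, algebraMap F k (c i) * u i = 0 → c = 0 := by
      intro c hc0
      apply hind
      have hroot : lz q n (fun l => aeval t (a l)) (∑ i, cst k F L (c i) * X i) = 0 :=
        lz_sum hp hq n _ (fun i => cst k F L (c i)) X (fun i => hcstq (c i)) hrel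
      refine zero Q hq2 hn ?_ hA hroot ?_
      · show aeval t (a 0) = 1
        rw [ha0, map_one]
      have h1 : ∑ i, cst k F L (c i) * X i =
          ∑ i, cst k F L (c i) * (X i - algebraMap k L (u i)) := by
        have h2 : ∑ i, cst k F L (c i) * algebraMap k L (u i) = 0 := by
          have h3 := congrArg (algebraMap k L) hc0
          rw [map_zero, map_sum] at h3
          rw [← h3]
          refine Finset.sum_congr rfl fun i _ => ?_
          rw [map_mul]
        simp only [mul_sub]
        rw [Finset.sum_sub_distrib, h2, sub_zero]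
      rw [h1]
      refine Q.ge_sum _ _ _ fun i _ => ?_
      have := Q.ge_mul (Q.ge_const (algebraMap F k (c i))) (hu i)
      rwa [zero_add] at this
    have hcol : ∀ i, (fun j => g.1.1 j i) = (fun j => (1 : Matrix (Fin n) (Fin n) F) j i) := by
      intro i
      apply comb_inj (algebraMap F k) u hui
      have h1 : ∑ j, algebraMap F k ((1 : Matrix (Fin n) (Fin n) F) j i) * u j = u i := by
        rw [Finset.sum_eq_single i]
        · rw [Matrix.one_apply_eq, map_one, one_mul]
        · intro j _ hj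
          rw [Matrix.one_apply_ne hj, map_zero, zero_mul]
        · intro h
          exact absurd (Finset.mem_univ i) h
      rw [h1]
      rw [← sub_eq_zero]
      apply const0 Q
      have h2 : Q.Ge (ρ g (X i - algebraMap k L (u i))) 1 := hg.ge (hu i)
      rw [map_sub, AlgEquiv.commutes, hact g i] at h2
      have h3 : Q.Ge (∑ j, cst k F L (g.1.1 j i) * (X j - algebraMap k L (u j))) 1 := by
        refine Q.ge_sum _ _ _ fun j _ => ?_
        have := Q.ge_mul (Q.ge_const (algebraMap F k (g.1.1 j i))) (hu j)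
        rwa [zero_add] at this
      have h4 := Q.ge_sub h2 h3
      have h5 : algebraMap k L (∑ j, algebraMap F k (g.1.1 j i) * u j - u i) =
          ∑ j, cst k F L (g.1.1 j i) * X j - algebraMap k L (u i) -
            ∑ j, cst k F L (g.1.1 j i) * (X j - algebraMap k L (u j)) := by
        rw [map_sub, map_sum]
        simp only [mul_sub, map_mul]
        rw [Finset.sum_sub_distrib]
        ring
      rw [h5]
      exact h4
    apply Subtype.ext
    apply Subtype.ext
    ext j i
    exact congrFun (hcol i) j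

end FN1

theorem fn1_thm : S_FN1 := by
  intro p k F _ _ _ _ f q r m κ hp hc hf hq hF hm
  set a : ℕ → k[X] := fun l => (if l = 0 then 1 else 0) +
    (if l = r + 1 then Polynomial.X else 0) +
    (if l = 1 then Polynomial.C κ * Polynomial.X else 0) with ha
  have ha0 : a 0 = 1 := by
    rw [ha]
    simp
  obtain ⟨L, iL, iA, t, X, G₀, ρ, hrel, hind, htr, hcov⟩ :=
    FN1.cover p k F f q (r + m + 1) a (by omega) ha0 hp hc hf hq hF
  refine ⟨L, iL, iA, t, X, G₀, ρ, ⟨?_, hind, htr⟩, hcov⟩
  intro i
  have h := hrel i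
  unfold FN1.lz at h
  have e : ∀ l, aeval t (a l) * X i ^ q ^ l = (if l = 0 then X i ^ q ^ l else 0) +
      (if l = r + 1 then t * X i ^ q ^ l else 0) +
      (if l = 1 then algebraMap k L κ * t * X i ^ q ^ l else 0) := by
    intro l
    rw [ha]
    simp only [map_add]
    have e1 : aeval t (if l = 0 then (1 : k[X]) else 0) = if l = 0 then (1 : L) else 0 := by
      split_ifs <;> simp
    have e2 : aeval t (if l = r + 1 then (Polynomial.X : k[X]) else 0) =
        if l = r + 1 then t else 0 := by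
      split_ifs <;> simp
    have e3 : aeval t (if l = 1 then Polynomial.C κ * (Polynomial.X : k[X]) else 0) =
        if l = 1 then algebraMap k L κ * t else 0 := by
      split_ifs <;> simp
    rw [e1, e2, e3, add_mul, add_mul, ite_mul, ite_mul, ite_mul, one_mul, zero_mul]
  rw [Finset.sum_congr rfl fun l _ => e l, Finset.sum_add_distrib, Finset.sum_add_distrib,
    Finset.sum_ite_eq', Finset.sum_ite_eq', Finset.sum_ite_eq',
    if_pos (Finset.mem_range.2 (by omega)), if_pos (Finset.mem_range.2 (by omega)),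
    if_pos (Finset.mem_range.2 (by omega)), pow_zero, pow_one] at h
  linear_combination h

end Pool.CND
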